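import Pool.Agent.H96.LM.D
import Pool.Agent.H96.LM.E

/-!
# The Liouville function at the values of polynomials with linear factors, the constant terms of which run through
# arbitrary thin subsets of residue classes to large moduli

The constant terms of the linear factors are the integers near `c i + q i * t i z`, where the moduli `q i` may be as
large as `N ^ (2 / 3 - ρ)`, without exception if `q i` has no divisor in a sparse set `D` of integers larger than
`log ^ A N`, and (for most moduli) even as large as `N / log ^ c N`, and where `t i z` is an ARBITRARY finite family of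
integers with an additive energy of some order which is minimal, at the scale `N / q i`, up to a power of the
logarithm. Such a family may consist of `(N / q i) ^ ε` integers only. For instance the `t i z` may be the values of a
polynomial at an arbitrary dense set of arguments (`c + q p ^ 2` with primes `p`). The cofactors are
arbitrary polynomials.

Proof: the mean value of the sums over a whole residue class is from the library (`Pool.Agent.Y883.T4`, by the dispersion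
method); it is combined, by Hölder's inequality and a splitting of the circle according to the size of the exponential
sum over the family, with the energy (`Pool.Agent.H96.EM`).

From Mathlib: `ArithmeticFunction.cardFactors m`: the number of prime factors of `m` with multiplicity; `ℤ[X]`: the
polynomials with integer coefficients; `Fintype.piFinset E`: the product of the sets `E i`.
-/

set_option autoImplicit false

namespace Pool.Agent.Results.MP_892e4c_nt.ConstantsInResidueClasses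

open Finset Polynomial

/-- The Liouville function on the integers: `λ(-n) = λ(n)` and `λ(0) = 0`. -/
def lam (n : ℤ) : ℤ := if n = 0 then 0 else (-1) ^ ArithmeticFunction.cardFactors n.natAbs

/-- The additive energy of order `h` of a finite family of integers: the number of the solutions of
`v (i 1) + ... + v (i h) = v (j 1) + ... + v (j h)`. -/
noncomputable def energy (h : ℕ) {ι : Type} [Fintype ι] (v : ι → ℤ) : ℕ :=
  Nat.card {q : (Fin h → ι) × (Fin h → ι) // ∑ j, v (q.1 j) = ∑ j, v (q.2 j)}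

/-- The data: for each of at most `log ^ T N` indices `l` natural numbers `α l i ≥ 1`, a polynomial `g l` with integer
coefficients (arbitrary) and a weight `w l : ℕ → ℂ` bounded by `log ^ T N` (otherwise arbitrary). -/
structure Data (m T N : ℕ) where
  D : ℕ
  α : Fin D → Fin m → ℕ
  g : Fin D → ℤ[X]
  w : Fin D → ℕ → ℂ
  hD : (D : ℝ) ≤ Real.log N ^ T
  hα : ∀ l i, 1 ≤ α l i
  hw : ∀ l n, ‖w l n‖ ≤ Real.log N ^ T

/-- The constant terms `b 1, ..., b m` are good for the data: the sums of `w l n * λ(F(n))` over `n ≤ M`, where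
`F = g l * ∏ i ∈ J, (α l i T + b i)`, are at most `N / log ^ U N`, for all `l`, all nonempty sets `J` of indices and all
`M` with `α l i * M ≤ B N`. -/
def Good (B U N : ℕ) {m T : ℕ} (d : Data m T N) (b : Fin m → ℤ) : Prop :=
  ∀ l, ∀ J : Finset (Fin m), J.Nonempty → ∀ M : ℕ, (∀ i, d.α l i * M ≤ B * N) →
    ‖∑ n ∈ Icc 1 M, d.w l n * (lam ((d.g l * ∏ i ∈ J, (C (d.α l i : ℤ) * X + C (b i))).eval (n : ℤ)) : ℂ)‖ ≤
      N / Real.log N ^ U

/-- There are integers `b 1, ..., b m` with `|b i - v i| ≤ log ^ A N` for all `i` which are not good for the data. -/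
def Bad (A B U N : ℕ) {m T : ℕ} (d : Data m T N) (v : Fin m → ℤ) : Prop :=
  ∃ b : Fin m → ℤ, (∀ i, |(b i : ℝ) - v i| ≤ Real.log N ^ A) ∧ ¬ Good B U N d b

/-- The moduli: `Q` is a set of moduli `1 ≤ q ≤ N`, `D` is a set of integers larger than `log ^ A N` with at most `X ^ ρ`
members up to `X`, for every `X ≥ 1`; every `q ≤ N ^ (2 / 3 - ρ)` without a divisor in `D` belongs to `Q`, and for every
`X ≤ N` at most `(X ^ 2 / N) log ^ c N` moduli `q ≤ X` without a divisor in `D` do not belong to `Q`. -/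
def Moduli (ρ : ℝ) (A c N : ℕ) (D Q : Finset ℕ) : Prop :=
  (∀ q ∈ Q, 1 ≤ q ∧ q ≤ N) ∧ (∀ d ∈ D, Real.log N ^ A < (d : ℝ)) ∧
  (∀ X : ℝ, 1 ≤ X → ((D.filter (fun d : ℕ => (d : ℝ) ≤ X)).card : ℝ) ≤ X ^ ρ) ∧
  (∀ q : ℕ, 1 ≤ q → (q : ℝ) ≤ (N : ℝ) ^ (2 / 3 - ρ) → (∀ d ∈ D, ¬ d ∣ q) → q ∈ Q) ∧
  ∀ X : ℕ, X ≤ N → (((Icc 1 X).filter (fun q => (∀ d ∈ D, ¬ d ∣ q) ∧ q ∉ Q)).card : ℝ) * N ≤ (X : ℝ) ^ 2 * Real.log N ^ c

lemma eval_eq {m : ℕ} (g : ℤ[X]) (J : Finset (Fin m)) (α : Fin m → ℕ) (b : Fin m → ℤ) (n : ℕ) :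
    (lam ((g * ∏ i ∈ J, (C (α i : ℤ) * X + C (b i))).eval (n : ℤ)) : ℂ) =
      (Pool.Agent.Q25.TPol.lam (g.eval (n : ℤ)) : ℂ) *
        ∏ i ∈ J, Pool.Agent.Q25.TFam.even Pool.Agent.H373R2.T7.liR ((α i : ℤ) * n + b i) := by
  have h : ∀ z, lam z = Pool.Agent.Q25.TPol.lam z := fun _ => rfl
  rw [h, eval_mul, eval_prod, Pool.Agent.Q25.TPol.lam_mul, Pool.Agent.Q25.TPol.lam_prod]
  push_cast
  congr 1
  apply prod_congr rfl
  intro i _
  rw [Pool.Agent.Q25.TPol.lam_eq]
  congr 2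
  simp

lemma lift_order {V : Type} [Fintype V] (v : V → ℤ) (h h' C C' N q : ℕ) (hh : h ≤ h') (hC : C ≤ C') (hL : 1 ≤ Real.log (N : ℝ))
    (hE : (Pool.Agent.TH935.GF.En h v : ℝ) * N ≤ Real.log N ^ C * q * (Fintype.card V : ℝ) ^ (2 * h)) :
    (Pool.Agent.TH935.GF.En h' v : ℝ) * N ≤ Real.log N ^ C' * q * (Fintype.card V : ℝ) ^ (2 * h') := by
  obtain ⟨r, rfl⟩ : ∃ r, h' = h + r := ⟨h' - h, by omega⟩
  have h7 : (Pool.Agent.TH935.GF.En (h + r) v : ℝ) ≤ (Fintype.card V : ℝ) ^ (2 * r) * Pool.Agent.TH935.GF.En h v := by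
    exact_mod_cast Pool.Agent.H96.PR.En_mono h r v
  obtain ⟨cc, hcc⟩ : ∃ cc : ℝ, cc = (Fintype.card V : ℝ) := ⟨_, rfl⟩
  have hcc0 : 0 ≤ cc := by rw [hcc]; positivity
  rw [← hcc] at hE h7 ⊢
  have hL' : Real.log N ^ C ≤ Real.log N ^ C' := pow_le_pow_right₀ hL hC
  have hq0 : (0 : ℝ) ≤ q := Nat.cast_nonneg _
  calc (Pool.Agent.TH935.GF.En (h + r) v : ℝ) * N ≤ cc ^ (2 * r) * Pool.Agent.TH935.GF.En h v * N :=
        mul_le_mul_of_nonneg_right h7 (Nat.cast_nonneg _)
    _ = cc ^ (2 * r) * (Pool.Agent.TH935.GF.En h v * N) := by ring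
    _ ≤ cc ^ (2 * r) * (Real.log N ^ C * q * cc ^ (2 * h)) := mul_le_mul_of_nonneg_left hE (by positivity)
    _ ≤ cc ^ (2 * r) * (Real.log N ^ C' * q * cc ^ (2 * h)) := by gcongr
    _ = Real.log N ^ C' * q * cc ^ (2 * (h + r)) := by ring

open Classical in
/-- the conclusion for arbitrary families -/
def Concl (h A B C T U N m : ℕ) (Q : Finset ℕ) : Prop :=
  ∀ q : Fin m → ℕ, (∀ i, q i ∈ Q) → ∀ (c : Fin m → ℤ) (Z : Fin m → Type) [∀ i, Fintype (Z i)] (t : ∀ i, Z i → ℤ),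
    (∀ i z, |c i + q i * t i z| ≤ B * N) →
    (∀ i, (energy h (t i) : ℝ) * N ≤ Real.log N ^ C * q i * (Fintype.card (Z i) : ℝ) ^ (2 * h)) →
    ∀ d : Data m T N,
    (((univ : Finset (∀ i, Z i)).filter (fun z => Bad A B U N d (fun i => c i + q i * t i (z i)))).card : ℝ) ≤
      Fintype.card (∀ i, Z i) / Real.log N ^ U

open Classical in
/-- tuples from arbitrary families of small energy -/
lemma general (m h A B C T U : ℕ) (ρ : ℝ) (hρ : 0 < ρ) :
    ∃ e N₀ : ℕ, ∀ N : ℕ, N₀ ≤ N → ∃ D Q : Finset ℕ, Moduli ρ A e N D Q ∧ Concl h A B C T U N (m + 1) Q := by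
  obtain ⟨A₁, N₁, h1⟩ := Pool.Agent.H96.LM.tuples_win_cls m (h + 1) A B C T U (by omega)
  obtain ⟨e, N₂, h2⟩ := Pool.Agent.H96.LM.moduli (4 * (B + 1) + 6) A A₁ (by omega) ρ hρ
  obtain ⟨N₃, h3⟩ := Pool.Agent.H373R2.T7.ev_L' 1
  refine ⟨e, N₁ + N₂ + N₃ + 1, fun N hN => ?_⟩
  have hL1 := h3 N (by omega)
  have hNpos : (1 : ℝ) ≤ N := by exact_mod_cast (by omega : 1 ≤ N)
  obtain ⟨D, hD1, hD2, hD3, hD4⟩ := h2 N (by omega)
  obtain ⟨Q, hQ⟩ : ∃ Q : Finset ℕ, Q = (Icc 1 N).filter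
    (fun q => ¬ Pool.Agent.Y883.T4.BadF Pool.Agent.Y883.T4.liou ((4 * (B + 1) + 6) * N) A₁ q) := ⟨_, rfl⟩
  have hQm : ∀ q, q ∈ Q ↔ (1 ≤ q ∧ q ≤ N) ∧ ¬ Pool.Agent.Y883.T4.BadF Pool.Agent.Y883.T4.liou ((4 * (B + 1) + 6) * N) A₁ q := by
    intro q
    rw [hQ, mem_filter, mem_Icc]
  refine ⟨D, Q, ⟨?_, hD1, hD2, ?_, ?_⟩, ?_⟩
  · intro q hq
    exact ((hQm q).1 hq).1
  · intro q hq1 hq2 hq3
    refine (hQm q).2 ⟨⟨hq1, ?_⟩, hD3 q hq1 hq2 hq3⟩
    have h4 : (q : ℝ) ≤ N := by
      refine hq2.trans ?_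
      calc (N : ℝ) ^ (2 / 3 - ρ) ≤ (N : ℝ) ^ (1 : ℝ) := Real.rpow_le_rpow_of_exponent_le hNpos (by linarith)
        _ = N := Real.rpow_one _
    exact_mod_cast h4
  · intro X hX
    refine hD4 X hX _ ?_
    intro q hq
    rw [mem_filter, mem_Icc] at hq
    refine ⟨hq.1.1, hq.1.2, hq.2.1, ?_⟩
    by_contra hcon
    exact hq.2.2 ((hQm q).2 ⟨⟨hq.1.1, by omega⟩, hcon⟩)
  · intro q hq c Z _ t hv hE d
    refine h1 N (by omega) q (fun i => ⟨((hQm _).1 (hq i)).1.1, ((hQm _).1 (hq i)).1.2, ((hQm _).1 (hq i)).2⟩) c Z t hv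
      (fun i => lift_order (t i) h (h + 1) C C N (q i) (by omega) le_rfl hL1 (hE i)) d.D d.hD d.α
      (fun l z => d.w l z.toNat * (Pool.Agent.Q25.TPol.lam ((d.g l).eval z) : ℂ)) d.hα ?_ _ ?_
    · intro l z
      rw [norm_mul]
      calc _ ≤ Real.log N ^ T * 1 := mul_le_mul (d.hw l _) (Pool.Agent.Q25.TPol.lam_norm _) (norm_nonneg _)
            ((norm_nonneg _).trans (d.hw l 0))
        _ = _ := mul_one _
    · intro z hz
      obtain ⟨b, hb, hg⟩ := hz
      unfold Good at hg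
      push Not at hg
      obtain ⟨l, J, hJ, M, hM, h4⟩ := hg
      refine ⟨fun i => b i - (c i + q i * t i (z i)), fun i => ?_, l, J, hJ, M, hM, ?_⟩
      · have h5 := hb i
        push_cast at h5 ⊢
        exact h5
      refine lt_of_lt_of_eq h4 ?_
      congr 1
      apply sum_congr rfl
      intro n _
      rw [eval_eq, Int.toNat_natCast, mul_assoc]
      congr 2
      apply prod_congr rfl
      intro i _
      congr 1
      ring

open Classical in
/-- Let `m ≥ 1`, `A`, `B`, `C`, `T`, `U` be natural numbers and `ρ > 0`. The following two statements hold.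

(1) For every `h` there are `e`, `N₀` such that for all `N ≥ N₀` there are a sparse set `D` and a set `Q` of moduli as in
`Moduli`: `Q` contains all `q ≤ N ^ (2 / 3 - ρ)` without a divisor in `D`, and for every `X ≤ N` all but
`(X ^ 2 / N) log ^ e N` of the moduli `q ≤ X` without a divisor in `D`; the members of `D` are larger than `log ^ A N`, and
at most `X ^ ρ` of them are at most `X`. For all moduli `q 1, ..., q m` in `Q`, all integers `c 1, ..., c m` and ALL finite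
families `t i : Z i → ℤ`, `i = 1, ..., m`, with `|c i + q i t i| ≤ B N`, the additive energies of order `h` of which are at
most `log ^ C N` times `|Z i| ^ (2 h) / (N / q i)`, the smallest possible value up to the logarithms, and for all data (for
at most `log ^ T N` indices `l` natural numbers `α l i ≥ 1`, ARBITRARY polynomials `g l ∈ ℤ[T]` and ARBITRARY weights
`w l n` bounded by `log ^ T N`) the following holds: for all `z = (z 1, ..., z m)` with at most `1 / log ^ U N` times the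
number of all of them as exceptions, ALL integers `b 1, ..., b m` with `|b i - (c i + q i t i (z i))| ≤ log ^ A N` satisfy
`|∑ n ≤ M, w l n * λ(F(n))| ≤ N / log ^ U N` for all `l`, all nonempty sets `J` of indices and all `M` with
`α l i M ≤ B N`, where `F = g l * ∏ i ∈ J, (α l i T + b i)`.

(2) The same holds for `t i (n) = P i (n)`, `n ∈ E i`, where the `P i` are fixed nonconstant polynomials with integer
coefficients and `E i ⊆ {1, ..., X i}` are arbitrary sets with at least `X i / log ^ C N` elements (for instance: the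
primes), where `X i ^ deg (P i) ≥ (N / q i) / log ^ C N`. -/
theorem result (m : ℕ) (hm : 1 ≤ m) (A B C T U : ℕ) (ρ : ℝ) (hρ : 0 < ρ) :
    (∀ h : ℕ, ∃ e N₀ : ℕ, ∀ N : ℕ, N₀ ≤ N → ∃ D Q : Finset ℕ, Moduli ρ A e N D Q ∧
      ∀ q : Fin m → ℕ, (∀ i, q i ∈ Q) → ∀ (c : Fin m → ℤ) (Z : Fin m → Type) [∀ i, Fintype (Z i)] (t : ∀ i, Z i → ℤ),
      (∀ i z, |c i + q i * t i z| ≤ B * N) →
      (∀ i, (energy h (t i) : ℝ) * N ≤ Real.log N ^ C * q i * (Fintype.card (Z i) : ℝ) ^ (2 * h)) →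
      ∀ d : Data m T N,
      (((univ : Finset (∀ i, Z i)).filter (fun z => Bad A B U N d (fun i => c i + q i * t i (z i)))).card : ℝ) ≤
        Fintype.card (∀ i, Z i) / Real.log N ^ U) ∧
    (∀ P : Fin m → ℤ[X], (∀ i, 1 ≤ (P i).natDegree) →
      ∃ e N₀ : ℕ, ∀ N : ℕ, N₀ ≤ N → ∃ D Q : Finset ℕ, Moduli ρ A e N D Q ∧
      ∀ q : Fin m → ℕ, (∀ i, q i ∈ Q) → ∀ (c : Fin m → ℤ) (X : Fin m → ℕ) (E : Fin m → Finset ℕ),
      (∀ i, E i ⊆ Icc 1 (X i) ∧ (X i : ℝ) ≤ Real.log N ^ C * (E i).card) →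
      (∀ i, (N : ℝ) ≤ Real.log N ^ C * q i * (X i : ℝ) ^ (P i).natDegree) →
      (∀ i, ∀ n ∈ E i, |c i + q i * (P i).eval (n : ℤ)| ≤ B * N) →
      ∀ d : Data m T N,
      (((Fintype.piFinset E).filter (fun n => Bad A B U N d (fun i => c i + q i * (P i).eval (n i : ℤ)))).card : ℝ) ≤
        (∏ i, ((E i).card : ℝ)) / Real.log N ^ U) := by
  obtain ⟨m, rfl⟩ : ∃ m', m = m' + 1 := ⟨m - 1, by omega⟩
  refine ⟨fun h => general m h A B C T U ρ hρ, fun P hP => ?_⟩
  · choose H C' N₁ h1 using fun i => Pool.Agent.H96.LM.energy_poly_scale C (P i) (hP i)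
    obtain ⟨H', hH'⟩ : ∃ H' : ℕ, ∀ i, H i ≤ H' := ⟨∑ i, H i, fun i => single_le_sum (f := H) (fun _ _ => Nat.zero_le _) (mem_univ i)⟩
    obtain ⟨C'', hC''⟩ : ∃ C'' : ℕ, ∀ i, C' i ≤ C'' := ⟨∑ i, C' i, fun i => single_le_sum (f := C') (fun _ _ => Nat.zero_le _) (mem_univ i)⟩
    obtain ⟨e, N₂, h2⟩ := general m H' A B C'' T U ρ hρ
    obtain ⟨N₃, h3⟩ := Pool.Agent.H373R2.T7.ev_L' 1
    refine ⟨e, ∑ i, N₁ i + N₂ + N₃, fun N hN => ?_⟩
    have hL1 := h3 N (by omega)
    have hN₁ : ∀ i, N₁ i ≤ N := by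
      intro i
      have : N₁ i ≤ ∑ i, N₁ i := single_le_sum (f := N₁) (fun _ _ => Nat.zero_le _) (mem_univ i)
      omega
    obtain ⟨D, Q, hDQ, hc⟩ := h2 N (by omega)
    refine ⟨D, Q, hDQ, ?_⟩
    intro q hq c X E hE hX hv d
    have key : ∀ i, (Pool.Agent.TH935.GF.En H' (fun n : {n // n ∈ E i} => (P i).eval ((n : ℕ) : ℤ)) : ℝ) * N ≤
        Real.log N ^ C'' * q i * (Fintype.card {n // n ∈ E i} : ℝ) ^ (2 * H') := by
      intro i
      apply lift_order _ (H i) H' (C' i) C'' N (q i) (hH' i) (hC'' i) hL1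
      exact h1 i N (hN₁ i) (q i) (X i) (E i) (hE i).1 (hE i).2 (hX i)
    have h4 := hc q hq c (fun i => {n // n ∈ E i}) (fun i n => (P i).eval ((n : ℕ) : ℤ))
      (fun i n => hv i n n.2) key d
    have e1 : (Fintype.card (∀ i, {n // n ∈ E i}) : ℝ) = ∏ i, ((E i).card : ℝ) := by
      rw [Fintype.card_pi]
      push_cast
      exact prod_congr rfl fun j _ => by rw [Fintype.card_coe]
    rw [e1] at h4
    refine le_trans ?_ h4
    rw [Nat.cast_le]
    apply card_le_card_of_surjOn (fun x i => ((x i : {n // n ∈ E i}) : ℕ))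
    intro x hx
    rw [mem_coe, mem_filter, Fintype.mem_piFinset] at hx
    refine ⟨fun i => ⟨x i, hx.1 i⟩, ?_, rfl⟩
    rw [mem_coe, mem_filter]
    exact ⟨mem_univ _, hx.2⟩

end Pool.Agent.Results.MP_892e4c_nt.ConstantsInResidueClasses
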