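import Mathlib
import Pool.Agent.H92.E.Red
import Pool.Graph.R_pool_sql_team_seeded_f0cf7b00.H262R3.Lk.Fn8

/-!
# The Liouville function at products of linear factors: all sign patterns at the scale of Linnik's theorem, for EVERY system

`Ω (n)` is the number of prime factors of `n` with multiplicity, `λ (n) = (-1) ^ Ω (n)`.

For all `m` and `h ≥ 1` there are `K`, `A`, `γ` and `c > 0` such that for EVERY set of `k ≥ K` pairwise non-proportional
forms `a_i x + b_i`, `1 ≤ a_i ≤ M`, `|b_i| ≤ M`, ALL residues `r_i` modulo `h`, all `y ≥ γ M` and EVERY class `t` modulo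
EVERY `q ≤ y` the following holds for at least `c (k choose m)` of the `m`-element subsets `S` of the set: for at least `y`
of the `n ≤ y ^ A`, `n ≡ t (mod q)`, the numbers `a_i n + b_i` are positive and `Ω (a_i n + b_i) ≡ r_i (mod h)` for all
`i ∈ S`. For `h = 2` these are the sign patterns of the Liouville function: `λ (a_i n + b_i) = ε_i` for all `i ∈ S`, with
arbitrary prescribed signs `ε_i`; in particular, for each of the two signs, `λ` takes this value at the polynomial
`∏_{i ∈ S} (a_i x + b_i)` for `x ^ κ` of the `n ≤ x` of every class to every modulus `q ≤ x ^ κ` (any `κ < 1 / A`), as soon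
as `x` exceeds a fixed power of the size of the coefficients, for a positive proportion of the `S`. There is no condition on
the coefficients besides Chowla's, and no exceptional modulus is left out.

Proof. Multiplying `x` by a number built of the primes `≤ k` and dividing by the fixed divisors makes the set
admissible. The substitution `x → ν + P x` makes the `i`-th value divisible by a given number `u_i` (a power of a prime
`p_i`), and division by it changes the residue of `Ω`. So it is enough to find `n` with `Ω ≡ 1` for `m` of the values, for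
instance with `m` prime values. If no exceptional modulus divides many of the leading coefficients this is the
Maynard-Tao sieve at the scale of Linnik's theorem (library). The new part is the case of an exceptional
modulus `f` (the modulus of a real primitive character `χ` whose `L`-function is very small near `1`) which divides many
leading coefficients. Then `χ (a_i n + b_i) = χ (b_i)` for all `n`, the function `λ` is close to `χ`, and for
`χ (b_i) = 1` there may be no primes among the values. There is a scale `s`, between two fixed powers of `M`, at which the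
primes `r` with `χ (r) = 1` are very rare: the sum of `1 / r` over those between `s ^ 16` and `s ^ V` is as small as we
like. But they exist (Siegel's bound for `L (1, χ)` and a sieve, `Pool.Agent.H92.G.PlusFin`, here in the classes `1 + f j` modulo
powers of `f`, so that we get as many as we need). We use them to turn `λ` away from `χ`: the `i`-th value is made divisible
by `u_i = p_i ^ t_i ρ_i ^ e_i` with different primes `χ (p_i) = -1`, `χ (ρ_i) = 1`, between two powers of `s`, where `t_i` and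
`e_i ≤ 1` are chosen such that the quotients are forms with `χ = -1` and that the residue of `Ω` is the given one if the
quotient is a prime. For forms with `χ = -1` the primes are counted from below with the linear sieve and the rarity of the
`r` with `χ (r) = 1`, and the Maynard-Tao sieve gives `m` prime quotients (`Pool.Agent.H92.T.Minus`). Restricting `n` to the classes `t + q j` modulo `q C y`, `j < C y`, gives again
such systems of forms, and double counting gives the `y` numbers `n`.
-/

set_option autoImplicit false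

open Finset Filter

namespace Pool.Agent.Results.MP_892e4c_nt.EverySystemAtLinnikScale

open Classical in
/-- The existence of one `n`: for all `m` and `h ≥ 1` there are `K`, `A`, `γ` and `c > 0` such that for all `k ≥ K` pairwise
non-proportional forms `a i * x + b i` with `1 ≤ a i ≤ M` and `|b i| ≤ M` and all `r i` the following holds for at least
`c (k choose m)` of the `m`-element sets `S` of indices: some `n` with `M ≤ n ≤ γ M ^ A` satisfies `a i * n + b i > 0` and
`Ω (a i * n + b i) ≡ r i (mod h)` for all `i ∈ S`. -/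
theorem base (m h : ℕ) (hh : 1 ≤ h) : ∃ K A γ : ℕ, ∃ c : ℝ, 0 < c ∧ ∀ k : ℕ, K ≤ k →
    ∀ (a : Fin k → ℕ) (b : Fin k → ℤ), (∀ i, 1 ≤ a i) → (∀ i j, i ≠ j → (a i : ℤ) * b j ≠ a j * b i) →
    ∀ M : ℕ, (∀ i, a i ≤ M ∧ |b i| ≤ M) → ∀ r : Fin k → ℕ,
      c * k.choose m ≤ #{S ∈ powersetCard m (univ : Finset (Fin k)) |
        ∃ n : ℕ, M ≤ n ∧ n ≤ γ * M ^ A ∧ ∀ i ∈ S, 0 < (a i : ℤ) * n + b i ∧
          ArithmeticFunction.cardFactors ((a i : ℤ) * n + b i).toNat ≡ r i [MOD h]} := by
  obtain ⟨K0, A, M0, hG⟩ := Pool.Agent.H92.E.mainG m h hh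
  have hch : (0 : ℝ) < ((K0 + m + 1).choose m : ℕ) := by
    have : 0 < (K0 + m + 1).choose m := Nat.choose_pos (by omega)
    exact_mod_cast this
  refine ⟨K0 + m + 1, 2 * A + 1, (3 * (M0 + 1)) ^ A + 2, 1 / ((K0 + m + 1).choose m : ℕ), by positivity,
    fun k hk a b ha hne M hM r => ?_⟩
  have hM1 : 1 ≤ M := by
    have h1 := (hM ⟨0, by omega⟩).1
    have h2 := ha ⟨0, by omega⟩
    omega
  refine Pool.Agent.H262R3.Lk.dbl_count (k := k) (K := K0 + m + 1) (m := m) (by omega) hk
    (fun S => ∃ n : ℕ, M ≤ n ∧ n ≤ ((3 * (M0 + 1)) ^ A + 2) * M ^ (2 * A + 1) ∧ ∀ i ∈ S, 0 < (a i : ℤ) * n + b i ∧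
          ArithmeticFunction.cardFactors ((a i : ℤ) * n + b i).toNat ≡ r i [MOD h]) ?_
  intro U hU
  obtain ⟨e, he, heU⟩ := Pool.Agent.H262R3.Lk.sub_emb (k := K0) U (by omega)
  have hb0 : ∀ i, 1 ≤ (a i : ℤ) * (M + 1) + b i ∧ (a i : ℤ) * (M + 1) + b i ≤ 3 * M ^ 2 := by
    intro i
    have h1 := (abs_le.1 (hM i).2).1
    have h2 := (abs_le.1 (hM i).2).2
    have h3 : (1 : ℤ) ≤ a i := by exact_mod_cast ha i
    have h4 : (a i : ℤ) ≤ M := by exact_mod_cast (hM i).1
    have h5 : (1 : ℤ) ≤ M := by exact_mod_cast hM1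
    constructor
    · nlinarith
    · nlinarith
  obtain ⟨n, hn, hP⟩ := hG (3 * (M0 + 1) * M ^ 2) (by
    calc M0 ≤ 3 * (M0 + 1) * 1 := by omega
      _ ≤ 3 * (M0 + 1) * M ^ 2 := Nat.mul_le_mul_left _ (Nat.one_le_pow _ _ hM1)) (fun j => a (e j))
    (fun j => ((a (e j) : ℤ) * (M + 1) + b (e j)).toNat)
    (fun j => ⟨ha _, by
      calc a (e j) ≤ 1 * M := by rw [one_mul]; exact (hM _).1
        _ ≤ 3 * (M0 + 1) * M ^ 2 := Nat.mul_le_mul (by omega) (Nat.le_self_pow (by norm_num) M)⟩)
    (fun j => by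
      have h1 := hb0 (e j)
      have h2 : (((a (e j) : ℤ) * (M + 1) + b (e j)).toNat : ℤ) = (a (e j) : ℤ) * (M + 1) + b (e j) :=
        Int.toNat_of_nonneg (by omega)
      constructor
      · zify
        rw [h2]
        exact h1.1
      · have h3 : ((a (e j) : ℤ) * (M + 1) + b (e j)).toNat ≤ 3 * M ^ 2 := by
          zify
          rw [h2]
          exact h1.2
        calc _ ≤ 3 * M ^ 2 := h3
          _ ≤ 3 * (M0 + 1) * M ^ 2 := Nat.mul_le_mul_right _ (by omega))
    (fun i j hij => by
      have h1 := hb0 (e i)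
      have h2 := hb0 (e j)
      intro h3
      apply hne (e i) (e j) (fun h => hij (he h))
      have h4 : ((a (e i) : ℤ)) * (((a (e j) : ℤ) * (M + 1) + b (e j)).toNat : ℤ) =
          (a (e j) : ℤ) * (((a (e i) : ℤ) * (M + 1) + b (e i)).toNat : ℤ) := by exact_mod_cast h3
      rw [Int.toNat_of_nonneg (by omega), Int.toNat_of_nonneg (by omega)] at h4
      linarith)
    (fun j => r (e j))
  obtain ⟨S, hS, hc⟩ := Finset.exists_subset_card_eq hP
  refine ⟨S.image e, ?_, by rw [card_image_of_injective _ he, hc], n + (M + 1), by omega, ?_, ?_⟩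
  · intro i hi
    rw [mem_image] at hi
    obtain ⟨j, _, rfl⟩ := hi
    exact heU j
  · have h1 : M ≤ M ^ (2 * A + 1) := Nat.le_self_pow (by omega) M
    have h2 : M ^ (2 * A) ≤ M ^ (2 * A + 1) := Nat.pow_le_pow_right hM1 (by omega)
    rw [mul_pow, ← pow_mul] at hn
    have h3 : (3 * (M0 + 1)) ^ A * M ^ (2 * A) ≤ (3 * (M0 + 1)) ^ A * M ^ (2 * A + 1) := Nat.mul_le_mul_left _ h2
    have h4 : ((3 * (M0 + 1)) ^ A + 2) * M ^ (2 * A + 1) = (3 * (M0 + 1)) ^ A * M ^ (2 * A + 1) + 2 * M ^ (2 * A + 1) := by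
      ring
    rw [h4]
    omega
  · intro i hi
    rw [mem_image] at hi
    obtain ⟨j, hj, rfl⟩ := hi
    have h1 := (mem_filter.1 (hS hj)).2
    have h2 := hb0 (e j)
    have h3 : (((a (e j) : ℤ) * (M + 1) + b (e j)).toNat : ℤ) = (a (e j) : ℤ) * (M + 1) + b (e j) :=
      Int.toNat_of_nonneg (by omega)
    have h4 : (a (e j) : ℤ) * ((n + (M + 1) : ℕ) : ℤ) + b (e j) =
        ((a (e j) * n + ((a (e j) : ℤ) * (M + 1) + b (e j)).toNat : ℕ) : ℤ) := by
      push_cast [h3]
      ring
    rw [h4, Int.toNat_natCast]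
    refine ⟨?_, h1⟩
    have h5 : (1 : ℤ) ≤ (((a (e j) : ℤ) * (M + 1) + b (e j)).toNat : ℤ) := by rw [h3]; exact h2.1
    push_cast
    have h6 : (0 : ℤ) ≤ (a (e j) : ℤ) * n := by positivity
    linarith

/-- Double counting: if every `j < N` has at least `c #F` elements of `F`, then at least `(c / 2) #F` elements
of `F` have at least `y` of the `j`. -/
theorem dcount {α : Type} [DecidableEq α] (F : Finset α) (P : ℕ → α → Prop) [∀ j S, Decidable (P j S)] (N y : ℕ)
    (c : ℝ) (hy : (2 * y : ℝ) ≤ c * N) (hN : 0 < N) (h : ∀ j < N, c * #F ≤ #{S ∈ F | P j S}) :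
    c / 2 * #F ≤ #{S ∈ F | y ≤ #{j ∈ range N | P j S}} := by
  have h1 : (N : ℝ) * (c * #F) ≤ ∑ j ∈ range N, (#{S ∈ F | P j S} : ℝ) := by
    calc (N : ℝ) * (c * #F) = ∑ _j ∈ range N, c * (#F : ℝ) := by rw [sum_const, card_range, nsmul_eq_mul]
      _ ≤ _ := sum_le_sum fun j hj => h j (mem_range.1 hj)
  have h2 : ∑ j ∈ range N, (#{S ∈ F | P j S} : ℝ) = ∑ S ∈ F, (#{j ∈ range N | P j S} : ℝ) := by
    have : ∑ j ∈ range N, #{S ∈ F | P j S} = ∑ S ∈ F, #{j ∈ range N | P j S} := by
      simp only [card_filter]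
      exact sum_comm
    exact_mod_cast this
  have h3 : ∑ S ∈ F, (#{j ∈ range N | P j S} : ℝ) ≤ N * #{S ∈ F | y ≤ #{j ∈ range N | P j S}} + y * #F := by
    rw [← sum_filter_add_sum_filter_not F (fun S => y ≤ #{j ∈ range N | P j S})]
    apply add_le_add
    · calc ∑ S ∈ F with y ≤ #{j ∈ range N | P j S}, (#{j ∈ range N | P j S} : ℝ) ≤
          ∑ _S ∈ F with y ≤ #{j ∈ range N | P j _S}, (N : ℝ) := by
            apply sum_le_sum
            intro S _
            have := card_filter_le (range N) (fun j => P j S)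
            rw [card_range] at this
            exact_mod_cast this
        _ = _ := by rw [sum_const, nsmul_eq_mul, mul_comm]
    · calc ∑ S ∈ F with ¬ y ≤ #{j ∈ range N | P j S}, (#{j ∈ range N | P j S} : ℝ) ≤
          ∑ _S ∈ F with ¬ y ≤ #{j ∈ range N | P j _S}, (y : ℝ) := by
            apply sum_le_sum
            intro S hS
            have := (mem_filter.1 hS).2
            push Not at this
            exact_mod_cast this.le
        _ = y * #{S ∈ F | ¬ y ≤ #{j ∈ range N | P j S}} := by rw [sum_const, nsmul_eq_mul, mul_comm]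
        _ ≤ y * #F := by
            apply mul_le_mul_of_nonneg_left _ (Nat.cast_nonneg y)
            exact_mod_cast card_filter_le _ _
  have hN' : (0 : ℝ) < N := by exact_mod_cast hN
  have h4 : (N : ℝ) * (c * #F) ≤ N * #{S ∈ F | y ≤ #{j ∈ range N | P j S}} + y * #F := h1.trans (h2.le.trans h3)
  have h5 : (y : ℝ) * #F ≤ N * (c / 2 * #F) := by
    calc (y : ℝ) * #F ≤ (c * N / 2) * #F := by
          apply mul_le_mul_of_nonneg_right _ (Nat.cast_nonneg _)
          linarith
      _ = N * (c / 2 * #F) := by ring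
  have h6 : (N : ℝ) * (c / 2 * #F) ≤ N * #{S ∈ F | y ≤ #{j ∈ range N | P j S}} := by
    calc (N : ℝ) * (c / 2 * #F) = N * (c * #F) - N * (c / 2 * #F) := by ring
      _ ≤ _ := by linarith
  exact le_of_mul_le_mul_left h6 hN'

open Classical in
/-- For all `m` and `h ≥ 1` there are `K`, `A`, `γ` and `c > 0` such that for all `k ≥ K` pairwise non-proportional forms
`a i * x + b i` with `1 ≤ a i ≤ M` and `|b i| ≤ M`, all `r i`, all `y ≥ γ M` and every class `t` modulo every `q ≤ y` the
following holds for at least `c (k choose m)` of the `m`-element sets `S` of indices: for at least `y` of the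
`n ≤ y ^ A`, `n ≡ t (mod q)`, all the `a i * n + b i`, `i ∈ S`, are positive and
`Ω (a i * n + b i) ≡ r i (mod h)`. -/
theorem result (m h : ℕ) (hh : 1 ≤ h) : ∃ K A γ : ℕ, ∃ c : ℝ, 0 < c ∧ ∀ k : ℕ, K ≤ k →
    ∀ (a : Fin k → ℕ) (b : Fin k → ℤ), (∀ i, 1 ≤ a i) → (∀ i j, i ≠ j → (a i : ℤ) * b j ≠ a j * b i) →
    ∀ M : ℕ, (∀ i, a i ≤ M ∧ |b i| ≤ M) → ∀ r : Fin k → ℕ, ∀ y : ℕ, γ * M ≤ y → ∀ q t : ℕ, 1 ≤ q → q ≤ y →
      c * k.choose m ≤ #{S ∈ powersetCard m (univ : Finset (Fin k)) |
        y ≤ #{n ∈ range (y ^ A + 1) | n ≡ t [MOD q] ∧ ∀ i ∈ S, 0 < (a i : ℤ) * n + b i ∧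
          ArithmeticFunction.cardFactors ((a i : ℤ) * n + b i).toNat ≡ r i [MOD h]}} := by
  obtain ⟨K0, A, γ, c, hc, hB⟩ := base m h hh
  obtain ⟨C, hC⟩ : ∃ C : ℕ, 2 / c < C := exists_nat_gt _
  have hC0 : 0 < C := by
    have h1 : (0 : ℝ) < C := lt_trans (by positivity) hC
    exact_mod_cast h1
  have hCc : (2 : ℝ) ≤ c * C := by
    rw [div_lt_iff₀ hc] at hC
    linarith
  obtain ⟨G, hG⟩ : ∃ G : ℕ, G = C * (1 + γ * (2 * C) ^ A) + 1 := ⟨_, rfl⟩
  refine ⟨K0 + 1, 3 * A + 3, G, c / 2, by positivity, fun k hk a b ha hne M hM r y hy q t hq hqy => ?_⟩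
  have hM1 : 1 ≤ M := by
    have h1 := (hM ⟨0, by omega⟩).1
    have h2 := ha ⟨0, by omega⟩
    omega
  have hGy : G ≤ y := (Nat.le_mul_of_pos_right _ (by omega)).trans hy
  have hy1 : 1 ≤ y := by omega
  have hMy : M ≤ y := (Nat.le_mul_of_pos_left _ (by omega)).trans hy
  obtain ⟨N, hN⟩ : ∃ N : ℕ, N = C * y := ⟨_, rfl⟩
  have hN0 : 0 < N := by rw [hN]; positivity
  obtain ⟨s, hs⟩ : ∃ s : ℕ, s = t % q := ⟨_, rfl⟩
  have hsq : s < q := by rw [hs]; exact Nat.mod_lt _ (by omega)
  have hst : s ≡ t [MOD q] := by rw [hs]; exact Nat.mod_modEq t q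
  obtain ⟨M', hM'⟩ : ∃ M' : ℕ, M' = 2 * C * y ^ 3 := ⟨_, rfl⟩
  have hqN : q * N ≤ C * y ^ 2 := by
    calc q * N ≤ y * (C * y) := by rw [hN]; exact Nat.mul_le_mul_right _ hqy
      _ = C * y ^ 2 := by ring
  have hMQ : M * (q * N) ≤ C * y ^ 3 := by
    calc M * (q * N) ≤ y * (C * y ^ 2) := Nat.mul_le_mul hMy hqN
      _ = C * y ^ 3 := by ring
  -- the systems belonging to the classes `s + q j` modulo `q N`
  have key : ∀ j < N, c * k.choose m ≤ #{S ∈ powersetCard m (univ : Finset (Fin k)) |
      ∃ n : ℕ, n ≤ γ * M' ^ A ∧ ∀ i ∈ S, 0 < (a i : ℤ) * ((s + q * j + q * N * n : ℕ) : ℤ) + b i ∧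
        ArithmeticFunction.cardFactors ((a i : ℤ) * ((s + q * j + q * N * n : ℕ) : ℤ) + b i).toNat ≡ r i [MOD h]} := by
    intro j hj
    have hsj : s + q * j ≤ q * N := by
      calc s + q * j ≤ q * (j + 1) := by
            have : q * (j + 1) = q * j + q := by ring
            omega
        _ ≤ q * N := Nat.mul_le_mul_left _ hj
    have h1 := hB k (by omega) (fun i => a i * (q * N)) (fun i => (a i : ℤ) * ((s + q * j : ℕ) : ℤ) + b i)
      (fun i => Nat.mul_pos (ha i) (Nat.mul_pos hq hN0)) (by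
        intro i i' hii h2
        apply hne i i' hii
        have h3 : ((q * N : ℕ) : ℤ) ≠ 0 := by
          have : 0 < q * N := Nat.mul_pos hq hN0
          exact_mod_cast this.ne'
        apply mul_left_cancel₀ h3
        push_cast at h2 ⊢
        linarith) M' (by
        intro i
        have h2 := (hM i).1
        have h3 : a i * (q * N) ≤ C * y ^ 3 := (Nat.mul_le_mul_right _ h2).trans hMQ
        constructor
        · rw [hM']
          calc a i * (q * N) ≤ C * y ^ 3 := h3
            _ ≤ 2 * C * y ^ 3 := by nlinarith [Nat.zero_le (C * y ^ 3)]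
        · have h4 := (abs_le.1 (hM i).2).1
          have h5 := (abs_le.1 (hM i).2).2
          have h6 : (a i : ℤ) * ((s + q * j : ℕ) : ℤ) ≤ (C * y ^ 3 : ℕ) := by
            have h7 : a i * (s + q * j) ≤ C * y ^ 3 := (Nat.mul_le_mul_left _ hsj).trans h3
            exact_mod_cast h7
          have h7 : (0 : ℤ) ≤ (a i : ℤ) * ((s + q * j : ℕ) : ℤ) := by positivity
          have h8 : (M : ℤ) ≤ (C * y ^ 3 : ℕ) := by
            have : M ≤ C * y ^ 3 := by
              calc M ≤ y := hMy
                _ ≤ y ^ 3 := Nat.le_self_pow (by norm_num) y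
                _ ≤ C * y ^ 3 := Nat.le_mul_of_pos_left _ hC0
            exact_mod_cast this
          have h9 : (0 : ℤ) ≤ M := Int.natCast_nonneg M
          rw [hM', abs_le]
          push_cast at h6 h7 h8 ⊢
          constructor <;> linarith) r
    refine h1.trans (Nat.cast_le.2 (card_le_card ?_))
    intro S hS
    rw [mem_filter] at hS ⊢
    obtain ⟨hS1, n, _, hn2, hn3⟩ := hS
    refine ⟨hS1, n, hn2, fun i hi => ?_⟩
    have h2 := hn3 i hi
    have e : ((a i * (q * N) : ℕ) : ℤ) * n + ((a i : ℤ) * ((s + q * j : ℕ) : ℤ) + b i) =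
        (a i : ℤ) * ((s + q * j + q * N * n : ℕ) : ℤ) + b i := by
      push_cast
      ring
    rw [e] at h2
    exact h2
  have hcard : (#(powersetCard m (univ : Finset (Fin k))) : ℝ) = k.choose m := by
    rw [card_powersetCard, card_univ, Fintype.card_fin]
  have hfin := dcount (powersetCard m (univ : Finset (Fin k))) (fun j S => ∃ n : ℕ, n ≤ γ * M' ^ A ∧
      ∀ i ∈ S, 0 < (a i : ℤ) * ((s + q * j + q * N * n : ℕ) : ℤ) + b i ∧
        ArithmeticFunction.cardFactors ((a i : ℤ) * ((s + q * j + q * N * n : ℕ) : ℤ) + b i).toNat ≡ r i [MOD h])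
    N y c (by
      rw [hN]
      push_cast
      have hy0 : (0 : ℝ) ≤ y := Nat.cast_nonneg y
      nlinarith [mul_le_mul_of_nonneg_right hCc hy0]) hN0 (fun j hj => by rw [hcard]; exact key j hj)
  rw [hcard] at hfin
  refine hfin.trans (Nat.cast_le.2 (card_le_card ?_))
  intro S hS
  rw [mem_filter] at hS ⊢
  obtain ⟨hS1, hS2⟩ := hS
  refine ⟨hS1, hS2.trans ?_⟩
  -- the numbers `n` of the different classes
  have hch : ∀ j ∈ {j ∈ range N | ∃ n : ℕ, n ≤ γ * M' ^ A ∧
      ∀ i ∈ S, 0 < (a i : ℤ) * ((s + q * j + q * N * n : ℕ) : ℤ) + b i ∧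
        ArithmeticFunction.cardFactors ((a i : ℤ) * ((s + q * j + q * N * n : ℕ) : ℤ) + b i).toNat ≡ r i [MOD h]},
      ∃ n : ℕ, n ≤ γ * M' ^ A ∧
      ∀ i ∈ S, 0 < (a i : ℤ) * ((s + q * j + q * N * n : ℕ) : ℤ) + b i ∧
        ArithmeticFunction.cardFactors ((a i : ℤ) * ((s + q * j + q * N * n : ℕ) : ℤ) + b i).toNat ≡ r i [MOD h] :=
    fun j hj => (mem_filter.1 hj).2
  choose! ν hν using hch
  refine card_le_card_of_injOn (fun j => s + q * j + q * N * ν j) ?_ ?_
  · intro j hj
    obtain ⟨h1, h2⟩ := hν j hj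
    have hj' := mem_range.1 (mem_filter.1 hj).1
    rw [mem_coe, mem_filter, mem_range]
    refine ⟨?_, ?_, h2⟩
    · have hsj : s + q * j ≤ q * N := by
        calc s + q * j ≤ q * (j + 1) := by
              have : q * (j + 1) = q * j + q := by ring
              omega
          _ ≤ q * N := Nat.mul_le_mul_left _ hj'
      have h3 : s + q * j + q * N * ν j ≤ y ^ (3 * A + 3) := by
        calc s + q * j + q * N * ν j ≤ q * N + q * N * (γ * M' ^ A) := Nat.add_le_add hsj (Nat.mul_le_mul_left _ h1)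
          _ = q * N * (1 + γ * M' ^ A) := by ring
          _ ≤ (C * y ^ 2) * (y ^ (3 * A) * (1 + γ * (2 * C) ^ A)) := by
              apply Nat.mul_le_mul hqN
              have h4 : 1 ≤ y ^ (3 * A) := Nat.one_le_pow _ _ hy1
              have h5 : M' ^ A = (2 * C) ^ A * y ^ (3 * A) := by rw [hM', mul_pow, ← pow_mul]
              rw [h5]
              calc 1 + γ * ((2 * C) ^ A * y ^ (3 * A)) ≤ y ^ (3 * A) + γ * ((2 * C) ^ A * y ^ (3 * A)) :=
                    Nat.add_le_add_right h4 _
                _ = y ^ (3 * A) * (1 + γ * (2 * C) ^ A) := by ring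
          _ = (C * (1 + γ * (2 * C) ^ A)) * y ^ (3 * A + 2) := by ring
          _ ≤ y * y ^ (3 * A + 2) := Nat.mul_le_mul_right _ (by omega)
          _ = y ^ (3 * A + 3) := by ring
      exact Nat.lt_succ_of_le h3
    · have h3 : s + q * j + q * N * ν j ≡ s [MOD q] := by
        have : s + q * j + q * N * ν j = s + q * (j + N * ν j) := by ring
        rw [this]
        unfold Nat.ModEq
        rw [Nat.add_mul_mod_self_left]
      exact h3.trans hst
  · intro j hj j' hj' hjj
    have h1 := mem_range.1 (mem_filter.1 hj).1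
    have h2 := mem_range.1 (mem_filter.1 hj').1
    simp only at hjj
    have h3 : q * (j + N * ν j) = q * (j' + N * ν j') := by
      have e1 : s + q * j + q * N * ν j = s + q * (j + N * ν j) := by ring
      have e2 : s + q * j' + q * N * ν j' = s + q * (j' + N * ν j') := by ring
      rw [e1, e2] at hjj
      omega
    have h4 := Nat.eq_of_mul_eq_mul_left (by omega) h3
    have h5 : (j + N * ν j) % N = (j' + N * ν j') % N := by rw [h4]
    rw [Nat.add_mul_mod_self_left, Nat.add_mul_mod_self_left, Nat.mod_eq_of_lt h1, Nat.mod_eq_of_lt h2] at h5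
    exact h5

end Pool.Agent.Results.MP_892e4c_nt.EverySystemAtLinnikScale
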