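import Pool.Agent.H96.FL.R
import Pool.Agent.H96.FL.H
import Pool.Agent.H96.LM.E
import Pool.Graph.R_pool_sql_team_seeded_2aa45f1a.Q25.TPol

/-!
# The Liouville function at polynomials with a linear factor `a T + b`, `b` near `α v(x) + g(x) + β` with an ARBITRARY
# function `g`, for all real `α` outside a set of Hausdorff dimension zero

The constant terms `b` are the integers in intervals of every length around the real numbers `α v(x) + g(x) + β`. Here `v`
is any finite family of integers whose additive energy of some order is as small as possible up to logarithms (it may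
consist of `N ^ ε` integers only; for instance the values of a fixed polynomial at the members of a dense set), `g` is an
ARBITRARY real function, and `β` is an arbitrary real number which may depend on everything else. For given `v` and `g`
the result holds for all real numbers `α` outside a small set: it meets every interval of length `1` in a set which is
covered by `log ^ C N` intervals of length `2 / log ^ D N`, `D` arbitrary, with `C` not depending on `D`. Consequently, for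
given `v` and `g` at all the scales `N = 2 ^ i`, all the statements hold for all real `α` outside ONE set of Hausdorff
dimension zero.

Some `α` must be excluded: `g` is arbitrary, so that for instance `α v + g` may vanish identically.

Proof (`Pool.Agent.H96.FL`): the function `G(h) = |∑_m w(m) λ(m + h)| ^ 2` has an absolutely convergent Fourier series,
with a sum bounded by the product of the squares of the `L ^ 2`-norms; the mean value of `G` over all `h` is small by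
Davenport's theorem. The sum of `G` over short intervals around the points `α v(x) + g(x) + β` is bounded with the kernel
of Fejér by a weighted sum of exponential sums `∑_x e(r (α v(x) + g(x)) / Q)`; the low frequencies `r` are controlled by
the mean value of `G`. If the sum over the high frequencies is large for `α = α_1, ..., α_J`, where the distances of the
`α_j` are at least `1 / log ^ D N`, then `J` is bounded, by Hölder's inequality and the large sieve inequality for families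
of small energy (`Pool.Agent.H96.FP`).

From Mathlib: `ArithmeticFunction.cardFactors m`: the number of prime factors of `m` with multiplicity; `ℤ[X]`: the
polynomials with integer coefficients; `dimH`: the Hausdorff dimension; `∀ᶠ i in atTop, P i`: `P i` holds for all large `i`.
-/

set_option autoImplicit false

namespace Pool.Agent.Results.MP_892e4c_nt.GenericRealConstants

open Finset Polynomial Filter
open scoped NNReal

/-- The Liouville function on the integers: `λ(-n) = λ(n)` and `λ(0) = 0`. -/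
def lam (n : ℤ) : ℤ := if n = 0 then 0 else (-1) ^ ArithmeticFunction.cardFactors n.natAbs

/-- The additive energy of order `s` of a finite family of integers: the number of the solutions of
`v (i 1) + ... + v (i s) = v (j 1) + ... + v (j s)`. -/
noncomputable def energy (s : ℕ) {ι : Type} [Fintype ι] (v : ι → ℤ) : ℕ :=
  Nat.card {q : (Fin s → ι) × (Fin s → ι) // ∑ j, v (q.1 j) = ∑ j, v (q.2 j)}

/-- The constant term `b` is good for the number `a`, the polynomial `G` and the weights `w`: the sums of `w n * λ(F(n))`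
over `n ≤ M`, where `F = G * (a T + b)`, are at most `N / log ^ U N`, for all `M` with `a M ≤ B N`. -/
def Good (B U N a : ℕ) (G : ℤ[X]) (w : ℕ → ℂ) (b : ℤ) : Prop :=
  ∀ M : ℕ, a * M ≤ B * N → ‖∑ n ∈ Icc 1 M, w n * (lam ((G * (C (a : ℤ) * X + C b)).eval (n : ℤ)) : ℂ)‖ ≤ N / Real.log N ^ U

/-- The real number `y` is bad for the data `a l`, `G l`, `w l` (`l < L`): for some length `H`, `1 ≤ H ≤ N`, more than
`H / log ^ U N` integers `b` with `|b - y| ≤ H` and `|b| ≤ B N` are not good for some `l`. (If `y` is not bad then ALL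
integers `b` with `|b - y| < log ^ U N`, `|b| ≤ B N`, are good for all `l`.) -/
def Bad (B U N : ℕ) {L : ℕ} (a : Fin L → ℕ) (G : Fin L → ℤ[X]) (w : Fin L → ℕ → ℂ) (y : ℝ) : Prop :=
  ∃ H : ℝ, 1 ≤ H ∧ H ≤ N ∧
    H / Real.log N ^ U < ({b : ℤ | |(b : ℝ) - y| ≤ H ∧ |b| ≤ B * N ∧ ∃ l, ¬ Good B U N (a l) (G l) (w l) b}.ncard : ℝ)

/-- Every interval of length `1` meets `E` in a set which is covered by at most `n` intervals of length `2 δ`. -/
def Small (E : Set ℝ) (n δ : ℝ) : Prop :=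
  ∀ x : ℝ, ∃ T : Finset ℝ, (T.card : ℝ) ≤ n ∧ ∀ α ∈ E, x ≤ α → α ≤ x + 1 → ∃ t ∈ T, |α - t| ≤ δ

lemma lamC_eq (z : ℤ) : Pool.Agent.H96.FL.lamC z = (lam z : ℂ) := by
  unfold Pool.Agent.H96.FL.lamC lam Pool.Agent.H373R2.T7.liR
  rcases lt_trichotomy z 0 with h | h | h
  · rw [if_neg (by omega), if_pos h, if_neg h.ne]
    push_cast
    congr 2
    omega
  · subst h
    simp
  · rw [if_pos h, if_neg h.ne']
    push_cast
    congr 2
    omega

lemma lam_norm (z : ℤ) : ‖(lam z : ℂ)‖ ≤ 1 := by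
  unfold lam
  split_ifs
  · simp
  · push_cast
    rw [norm_pow, norm_neg, norm_one, one_pow]

lemma lam_mul (a b : ℤ) : lam (a * b) = lam a * lam b := Pool.Agent.Q25.TPol.lam_mul a b

/-- the weights on the multiples of `a` -/
noncomputable def wt (a : ℕ) (G : ℤ[X]) (w : ℕ → ℂ) (m : ℕ) : ℂ := if a ∣ m then w (m / a) * (lam (G.eval ((m / a : ℕ) : ℤ)) : ℂ) else 0

lemma wt_sum (a : ℕ) (ha : 1 ≤ a) (G : ℤ[X]) (w : ℕ → ℂ) (b : ℤ) (M : ℕ) :
    ∑ n ∈ Icc 1 M, w n * (lam ((G * (C (a : ℤ) * X + C b)).eval (n : ℤ)) : ℂ) =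
      ∑ m ∈ Icc 1 (a * M), wt a G w m * Pool.Agent.H96.FL.lamC (m + b) := by
  classical
  have h1 : ∑ m ∈ (Icc 1 M).image (fun n => a * n), wt a G w m * Pool.Agent.H96.FL.lamC (m + b) =
      ∑ m ∈ Icc 1 (a * M), wt a G w m * Pool.Agent.H96.FL.lamC (m + b) := by
    apply sum_subset
    · intro m hm
      rw [mem_image] at hm
      obtain ⟨n, hn, rfl⟩ := hm
      rw [mem_Icc] at hn ⊢
      constructor
      · exact Nat.mul_pos ha hn.1
      · exact Nat.mul_le_mul_left _ hn.2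
    · intro m hm hm'
      unfold wt
      rw [if_neg, zero_mul]
      rintro ⟨n, rfl⟩
      apply hm'
      rw [mem_image]
      rw [mem_Icc] at hm
      refine ⟨n, mem_Icc.2 ⟨?_, ?_⟩, rfl⟩
      · by_contra hcon
        have : n = 0 := by omega
        subst this
        omega
      · exact Nat.le_of_mul_le_mul_left hm.2 ha
  rw [← h1, sum_image (fun x _ y _ hxy => Nat.eq_of_mul_eq_mul_left ha hxy)]
  refine sum_congr rfl fun n _ => ?_
  unfold wt
  rw [if_pos (dvd_mul_right a n), Nat.mul_div_cancel_left n ha, lamC_eq, eval_mul, lam_mul]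
  push_cast
  rw [mul_assoc]
  congr 3
  simp

/-- auxiliary -/
def BadI (B U N : ℕ) {ι : Type} (I : Finset ι) (a : ι → ℕ) (G : ι → ℤ[X]) (w : ι → ℕ → ℂ) (y : ℝ) : Prop :=
  ∃ H : ℝ, 1 ≤ H ∧ H ≤ N ∧
    H / Real.log N ^ U < ({b : ℤ | |(b : ℝ) - y| ≤ H ∧ |b| ≤ B * N ∧ ∃ l ∈ I, ¬ Good B U N (a l) (G l) (w l) b}.ncard : ℝ)

open Classical in
lemma part0 (s B C₀ T U : ℕ) (hB : 1 ≤ B) : ∃ C : ℕ, ∀ D : ℕ, ∃ N₀ : ℕ, ∀ N : ℕ, N₀ ≤ N →
    ∀ (Z : Type) [Fintype Z] (v : Z → ℤ), (∀ x, |v x| ≤ B * N) →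
    (Pool.Agent.TH935.GF.En s v : ℝ) * N ≤ Real.log N ^ C₀ * (Fintype.card Z : ℝ) ^ (2 * s) → ∀ g : Z → ℝ,
    ∀ (ι : Type) (I : Finset ι), (I.card : ℝ) ≤ Real.log N ^ T → ∀ (a : ι → ℕ) (G : ι → ℤ[X]) (w : ι → ℕ → ℂ), (∀ l, 1 ≤ a l) →
    (∀ l n, ‖w l n‖ ≤ Real.log N ^ T) →
    ∃ 𝓔 : Set ℝ, Pool.Agent.H96.FL.Cov 𝓔 (Real.log N ^ C) (1 / Real.log N ^ D) ∧ ∀ α ∉ 𝓔, ∀ β : ℝ,
      (((univ : Finset Z).filter fun x => BadI B U N I a G w (α * v x + g x + β)).card : ℝ) ≤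
        Fintype.card Z / Real.log N ^ U := by
  obtain ⟨C, hC⟩ := Pool.Agent.H96.FL.liou_main s C₀ B T U hB
  refine ⟨C, fun D => ?_⟩
  obtain ⟨N₀, hN₀⟩ := hC D
  obtain ⟨n1, h1⟩ := Pool.Agent.H373R2.T7.ev_L' 1
  refine ⟨max N₀ n1, fun N hN Z _ v hv hE g ι I hI a G w ha hw => ?_⟩
  have hL1 := h1 N (le_trans (le_max_right _ _) hN)
  obtain ⟨𝓔, hE1, hE2⟩ := hN₀ N (le_trans (le_max_left _ _) hN) Z v hv hE g ι I hI
    (fun l => wt (a l) (G l) (w l)) (by
      intro l _ m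
      unfold wt
      split_ifs
      · rw [norm_mul]
        calc _ ≤ Real.log N ^ T * 1 := mul_le_mul (hw l _) (lam_norm _) (norm_nonneg _) ((norm_nonneg _).trans (hw l 0))
          _ = _ := mul_one _
      · rw [norm_zero]
        exact (norm_nonneg _).trans (hw l 0))
  refine ⟨𝓔, hE1, fun α hα β => ?_⟩
  refine le_trans ?_ (hE2 α hα β)
  apply Nat.cast_le.2
  apply card_le_card
  intro x hx
  rw [mem_filter] at hx ⊢
  obtain ⟨h2, H, hH1, hH2, hH3⟩ := hx
  refine ⟨h2, H, hH1, hH2, hH3.trans_le ?_⟩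
  apply Nat.cast_le.2
  rw [← Set.ncard_coe_finset]
  apply Set.ncard_le_ncard _ (finite_toSet _)
  rintro b ⟨h3, h4, l, hl, h5⟩
  rw [mem_coe, mem_filter, Pool.Agent.H96.FL.mem_win]
  refine ⟨h3, h4, l, hl, ?_⟩
  unfold Good at h5
  push Not at h5
  obtain ⟨M, hM, h6⟩ := h5
  refine ⟨a l * M, hM, ?_⟩
  rw [wt_sum (a l) (ha l)] at h6
  exact h6

open Classical in
lemma part1 (s B C₀ T U : ℕ) (hB : 1 ≤ B) : ∃ C : ℕ, ∀ D : ℕ, ∃ N₀ : ℕ, ∀ N : ℕ, N₀ ≤ N →
    ∀ (Z : Type) [Fintype Z] (v : Z → ℤ), (∀ x, |v x| ≤ B * N) →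
    (Pool.Agent.TH935.GF.En s v : ℝ) * N ≤ Real.log N ^ C₀ * (Fintype.card Z : ℝ) ^ (2 * s) → ∀ g : Z → ℝ,
    ∀ L : ℕ, (L : ℝ) ≤ Real.log N ^ T → ∀ (a : Fin L → ℕ) (G : Fin L → ℤ[X]) (w : Fin L → ℕ → ℂ), (∀ l, 1 ≤ a l) →
    (∀ l n, ‖w l n‖ ≤ Real.log N ^ T) →
    ∃ 𝓔 : Set ℝ, Pool.Agent.H96.FL.Cov 𝓔 (Real.log N ^ C) (1 / Real.log N ^ D) ∧ ∀ α ∉ 𝓔, ∀ β : ℝ,
      (((univ : Finset Z).filter fun x => Bad B U N a G w (α * v x + g x + β)).card : ℝ) ≤
        Fintype.card Z / Real.log N ^ U := by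
  obtain ⟨C, hC⟩ := part0 s B C₀ T U hB
  refine ⟨C, fun D => ?_⟩
  obtain ⟨N₀, hN₀⟩ := hC D
  refine ⟨N₀, fun N hN Z _ v hv hE g L hL a G w ha hw => ?_⟩
  obtain ⟨𝓔, hE1, hE2⟩ := hN₀ N hN Z v hv hE g (Fin L) univ (by rw [card_univ, Fintype.card_fin]; exact hL) a G w ha hw
  refine ⟨𝓔, hE1, fun α hα β => ?_⟩
  refine le_trans ?_ (hE2 α hα β)
  apply Nat.cast_le.2
  apply card_le_card
  intro x hx
  rw [mem_filter] at hx ⊢
  obtain ⟨h2, H, hH1, hH2, hH3⟩ := hx
  refine ⟨h2, H, hH1, hH2, hH3.trans_le (le_of_eq ?_)⟩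
  congr 2
  ext b
  simp

open Classical in
/-- Let `B ≥ 1`.

(1) Let `s`, `C₀`, `T`, `U` be natural numbers. There is `C` such that for every `D` and all large `N` the following holds.
Let `v : Z → ℤ` be ANY finite family of integers at most `B N` in absolute value, whose additive energy of order `s` is at
most `log ^ C₀ N` times `|Z| ^ (2 s) / N` (the smallest possible value up to the logarithms), let `g : Z → ℝ` be
ARBITRARY, and for `l < L ≤ log ^ T N` let `a l ≥ 1` be natural numbers, `G l` ARBITRARY polynomials with integer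
coefficients and `w l n` ARBITRARY weights bounded by `log ^ T N`. There is a set `𝓔` of real numbers which meets every
interval of length `1` in a set covered by `log ^ C N` intervals of length `2 / log ^ D N`, and for all real numbers
`α ∉ 𝓔` and ALL real numbers `β` the following holds for all `x ∈ Z` but a proportion of `1 / log ^ U N`: for all `H` with
`1 ≤ H ≤ N`, all but `H / log ^ U N` of the integers `b` with `|b - (α v(x) + g(x) + β)| ≤ H`, `|b| ≤ B N`, are good (thus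
ALL of them if `H < log ^ U N`): `|∑ n ≤ M, w l n * λ(G l(n) (a l n + b))| ≤ N / log ^ U N` for all `l` and all `M` with
`a l M ≤ B N`.

(2) Let `F` be a nonconstant polynomial with integer coefficients. For all large `i`, with `N = 2 ^ i`, let
`S i ⊆ {1, ..., X i}` be an ARBITRARY set with at least `X i / log ^ C₀ N` members, where
`(X i) ^ deg F ≥ N / log ^ C₀ N` and `|F| ≤ B N` on `S i`, and let `g i : ℕ → ℝ` be an ARBITRARY function. There is a set
`E` of real numbers of Hausdorff dimension ZERO such that for all real numbers `α ∉ E`, ALL polynomials `G` with integer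
coefficients, all `a ≥ 1` and all `U` the following holds for all large `i` and, with `N = 2 ^ i`, for ALL real numbers
`β`: for all `x ∈ S i` but `|S i| / log ^ U N`, for all `H` with `1 ≤ H ≤ N`, all but `H / log ^ U N` of the integers `b`
with `|b - (α F(x) + g i x + β)| ≤ H`, `|b| ≤ B N`, satisfy `|∑ n ≤ M, λ(G(n) (a n + b))| ≤ N / log ^ U N` for all `M` with
`a M ≤ B N`. -/
theorem result (B : ℕ) (hB : 1 ≤ B) :
    (∀ s C₀ T U : ℕ, ∃ C : ℕ, ∀ D : ℕ, ∃ N₀ : ℕ, ∀ N : ℕ, N₀ ≤ N →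
      ∀ (Z : Type) [Fintype Z] (v : Z → ℤ), (∀ x, |v x| ≤ B * N) →
      (energy s v : ℝ) * N ≤ Real.log N ^ C₀ * (Fintype.card Z : ℝ) ^ (2 * s) → ∀ g : Z → ℝ,
      ∀ L : ℕ, (L : ℝ) ≤ Real.log N ^ T → ∀ (a : Fin L → ℕ) (G : Fin L → ℤ[X]) (w : Fin L → ℕ → ℂ), (∀ l, 1 ≤ a l) →
      (∀ l n, ‖w l n‖ ≤ Real.log N ^ T) →
      ∃ 𝓔 : Set ℝ, Small 𝓔 (Real.log N ^ C) (1 / Real.log N ^ D) ∧ ∀ α ∉ 𝓔, ∀ β : ℝ,
        (((univ : Finset Z).filter fun x => Bad B U N a G w (α * v x + g x + β)).card : ℝ) ≤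
          Fintype.card Z / Real.log N ^ U) ∧
    (∀ F : ℤ[X], 1 ≤ F.natDegree → ∀ (C₀ : ℕ) (X : ℕ → ℕ) (S : ℕ → Finset ℕ),
      (∀ᶠ i : ℕ in atTop, S i ⊆ Icc 1 (X i) ∧ (X i : ℝ) ≤ Real.log ((2 ^ i : ℕ) : ℝ) ^ C₀ * (S i).card ∧
        ((2 ^ i : ℕ) : ℝ) ≤ Real.log ((2 ^ i : ℕ) : ℝ) ^ C₀ * (X i : ℝ) ^ F.natDegree ∧
        ∀ x ∈ S i, |F.eval (x : ℤ)| ≤ B * (2 ^ i : ℕ)) →
      ∀ g : ℕ → ℕ → ℝ, ∃ E : Set ℝ, dimH E = 0 ∧ ∀ α ∉ E, ∀ (G : ℤ[X]) (a U : ℕ), 1 ≤ a → ∀ᶠ i : ℕ in atTop, ∀ β : ℝ,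
        (((S i).filter fun x : ℕ => Bad B U (2 ^ i) (fun _ : Fin 1 => a) (fun _ => G) (fun _ _ => 1)
          (α * F.eval (x : ℤ) + g i x + β)).card : ℝ) ≤ (S i).card / Real.log ((2 ^ i : ℕ) : ℝ) ^ U) := by
  refine ⟨fun s C₀ T U => part1 s B C₀ T U hB, ?_⟩
  intro F hF C₀ X S hS g
  obtain ⟨n3, hS⟩ := eventually_atTop.1 hS
  obtain ⟨s', C', n1, h1⟩ := Pool.Agent.H96.LM.energy_poly_scale C₀ F hF
  obtain ⟨bad, hbad⟩ : ∃ bad : ℤ[X] → ℕ → ℕ → Set ℝ, bad = fun G a U => {α : ℝ | ∃ᶠ i : ℕ in atTop, ∃ β : ℝ,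
      ((S i).card : ℝ) / Real.log ((2 ^ i : ℕ) : ℝ) ^ U < (((S i).filter fun x : ℕ => Bad B U (2 ^ i) (fun _ : Fin 1 => a)
        (fun _ => G) (fun _ _ => 1) (α * F.eval (x : ℤ) + g i x + β)).card : ℝ)} := ⟨_, rfl⟩
  have hdim : ∀ (G : ℤ[X]) (a U : ℕ), 1 ≤ a → dimH (bad G a U) = 0 := by
    intro G a U ha
    rw [← nonpos_iff_eq_zero]
    apply le_of_forall_gt
    intro σ hσ
    rcases eq_or_ne σ ⊤ with h | h
    · rw [h]
      exact lt_of_le_of_lt (dimH_mono (Set.subset_univ _)) (by rw [Real.dimH_univ]; exact ENNReal.one_lt_top)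
    lift σ to ℝ≥0 using h with σ
    have hσ0 : 0 < σ := by exact_mod_cast hσ
    obtain ⟨τ, hτ0, hτ1⟩ := exists_between hσ0
    refine lt_of_le_of_lt ?_ (by exact_mod_cast hτ1 : (τ : ENNReal) < σ)
    obtain ⟨C, hC⟩ := part1 s' B C' 1 U hB
    obtain ⟨D, hD⟩ : ∃ D : ℕ, ((C : ℝ) + 2) / τ ≤ D := exists_nat_ge _
    have hτ' : (0 : ℝ) < τ := hτ0
    obtain ⟨N₀, hN₀⟩ := hC (D + 1)
    obtain ⟨n2, h2⟩ := Pool.Agent.H373R2.T7.ev_L' 1
    obtain ⟨i₀, hi₀⟩ : ∃ i₀, i₀ = max (max N₀ n1) (max n2 (max 2 n3)) := ⟨_, rfl⟩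
    have hi1 : ∀ i, i₀ ≤ 2 ^ (i + i₀) := by
      intro i
      have : i + i₀ < 2 ^ (i + i₀) := Nat.lt_two_pow_self
      omega
    have key : ∀ i : ℕ, ∃ 𝓔 : Set ℝ, Pool.Agent.H96.FL.Cov 𝓔 (Real.log ((2 ^ (i + i₀) : ℕ) : ℝ) ^ C)
        (1 / Real.log ((2 ^ (i + i₀) : ℕ) : ℝ) ^ (D + 1)) ∧ ∀ α ∉ 𝓔, ∀ β : ℝ,
          (((S (i + i₀)).filter fun x : ℕ => Bad B U (2 ^ (i + i₀)) (fun _ : Fin 1 => a) (fun _ => G) (fun _ _ => 1)
            (α * F.eval (x : ℤ) + g (i + i₀) x + β)).card : ℝ) ≤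
            ((S (i + i₀)).card : ℝ) / Real.log ((2 ^ (i + i₀) : ℕ) : ℝ) ^ U := by
      intro i
      have hNi := hi1 i
      obtain ⟨hS1, hS2, hS3, hS4⟩ := hS (i + i₀) (by omega)
      obtain ⟨N, hN⟩ : ∃ N, N = 2 ^ (i + i₀) := ⟨_, rfl⟩
      rw [← hN] at hNi hS2 hS3 hS4 ⊢
      have b0 : N₀ ≤ N := by omega
      have b1 : n1 ≤ N := by omega
      have b2 : n2 ≤ N := by omega
      have hL1 := h2 N b2
      have h3 := h1 N b1 1 (X (i + i₀)) (S (i + i₀)) hS1 hS2 (by rw [Nat.cast_one, mul_one]; exact hS3)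
      rw [Nat.cast_one, mul_one] at h3
      obtain ⟨𝓔, hE1, hE2⟩ := hN₀ N b0 {n // n ∈ S (i + i₀)} (fun n => F.eval ((n : ℕ) : ℤ))
        (fun x => hS4 x x.2) h3 (fun n => g (i + i₀) n) 1 (by rw [pow_one, Nat.cast_one]; exact hL1) (fun _ => a) (fun _ => G)
        (fun _ _ => 1) (fun _ => ha) (fun _ _ => by rw [norm_one, pow_one]; exact hL1)
      refine ⟨𝓔, hE1, fun α hα β => ?_⟩
      have h4 := hE2 α hα β
      rw [Fintype.card_coe] at h4
      refine le_trans ?_ h4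
      apply Nat.cast_le.2
      apply card_le_card_of_surjOn (fun x : {n // n ∈ S (i + i₀)} => (x : ℕ))
      intro x hx
      rw [mem_coe, mem_filter] at hx
      refine ⟨⟨x, hx.1⟩, ?_, rfl⟩
      rw [mem_coe, mem_filter]
      exact ⟨mem_univ _, hx.2⟩
    choose 𝓔 hE1 hE2 using key
    have h3 := Pool.Agent.H96.FL.dim_log 𝓔 C (D + 1) i₀ τ hτ0 (by
      rw [div_le_iff₀ hτ'] at hD
      push_cast
      nlinarith) (by omega) (by omega) hE1
    refine le_trans (dimH_mono ?_) h3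
    intro α hα
    rw [hbad] at hα
    rw [Set.mem_ofPred_eq] at hα ⊢
    rw [frequently_atTop] at hα ⊢
    intro c
    obtain ⟨b, hb1, β, hb2⟩ := hα (c + i₀)
    obtain ⟨i, rfl⟩ : ∃ i, b = i + i₀ := ⟨b - i₀, by omega⟩
    refine ⟨i, by omega, ?_⟩
    by_contra hcon
    have := hE2 i α hcon β
    linarith
  have hcount : Countable ℤ[X] := Cardinal.mk_le_aleph0_iff.1 (Polynomial.cardinalMk_le_max.trans (by simp))
  refine ⟨⋃ q : ℤ[X] × ℕ × ℕ, bad q.1 (q.2.1 + 1) q.2.2, ?_, ?_⟩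
  · rw [dimH_iUnion]
    simp only [hdim _ _ _ (Nat.le_add_left 1 _), iSup_const]
  · intro α hα G a U ha
    rw [Set.mem_iUnion, not_exists] at hα
    have h2 := hα (G, a - 1, U)
    simp only at h2
    rw [show a - 1 + 1 = a by omega, hbad, Set.mem_ofPred_eq, not_frequently] at h2
    filter_upwards [h2] with i hi β
    push Not at hi
    exact hi β

end Pool.Agent.Results.MP_892e4c_nt.GenericRealConstants
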