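import Pool.Agent.H96.LM.A
import Pool.Agent.H96.PR.H

/-!
# The Liouville function at the values of polynomials with linear factors, the constant terms of which are products of
# members of several thin families, changed by arbitrary functions each of which does not depend on one of the members

For `b = a 1 (x 1) ⋯ a k (x k) + f 1 (x) + ... + f k (x)`, where the `a j` are arbitrary families of integers with an
energy of some order which is minimal up to a power of the logarithm (for instance the values of polynomials at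
arbitrary dense sets of arguments) and the `f j` are COMPLETELY ARBITRARY functions such that `f j (x)` does not
depend on `x j`, the sums of `λ((α n + b) g(n))` are small for almost all `x`, for arbitrary polynomials `g`; and so
are the sums of `λ` at the products of several such linear factors, for almost all tuples.

Proof: an inequality of the type of Gowers, Cauchy and Schwarz bounds the energy of the family of all these `b`
(`Pool.Agent.H96.PR`); the bound for tuples from families of small energy is from the library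
(`Pool.Agent.Q25.TFam`, `Pool.Agent.Q25.TPol`).

From Mathlib: `ArithmeticFunction.cardFactors m`: the number of prime factors of `m` with multiplicity; `ℤ[X]`: the
polynomials with integer coefficients; `Fintype.piFinset D`: the product of the sets `D i`.
-/

set_option autoImplicit false

namespace Pool.Agent.Results.MP_892e4c_nt.PerturbedProductConstants

open Finset Polynomial

/-- The Liouville function on the integers: `λ(-n) = λ(n)` and `λ(0) = 0`. -/
def lam (n : ℤ) : ℤ := if n = 0 then 0 else (-1) ^ ArithmeticFunction.cardFactors n.natAbs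

/-- The additive energy of order `h` of a finite family of integers: the number of the solutions of
`v (i 1) + ... + v (i h) = v (j 1) + ... + v (j h)`. -/
noncomputable def energy (h : ℕ) {ι : Type} [Fintype ι] (v : ι → ℤ) : ℕ :=
  Nat.card {q : (Fin h → ι) × (Fin h → ι) // ∑ j, v (q.1 j) = ∑ j, v (q.2 j)}

/-- `f j x` does not depend on the coordinate `x j`, for all `j`; otherwise these functions are arbitrary. -/
def Free {k : ℕ} {X : Fin k → Type} (f : Fin k → (∀ j, X j) → ℤ) : Prop :=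
  ∀ (j : Fin k) (x x' : ∀ j, X j), (∀ t, t ≠ j → x t = x' t) → f j x = f j x'

/-- The product of the `a j (x j)`, changed by the sum of the `f j x`. -/
def val {k : ℕ} {X : Fin k → Type} (a : ∀ j, X j → ℤ) (f : Fin k → (∀ j, X j) → ℤ) (x : ∀ j, X j) : ℤ :=
  ∏ j, a j (x j) + ∑ j, f j x

/-- The data: for each of at most `log ^ T N` indices `l` natural numbers `α l i ≥ 1`, a polynomial `g l` with integer
coefficients (arbitrary) and a weight `w l : ℕ → ℂ` bounded by `log ^ T N` (otherwise arbitrary). -/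
structure Data (m T N : ℕ) where
  D : ℕ
  α : Fin D → Fin m → ℕ
  g : Fin D → ℤ[X]
  w : Fin D → ℕ → ℂ
  hD : (D : ℝ) ≤ Real.log N ^ T
  hα : ∀ l i, 1 ≤ α l i
  hw : ∀ l n, ‖w l n‖ ≤ Real.log N ^ T

/-- The constant terms `b 1, ..., b m` are good for the data: the sums of `w l n * λ(F(n))` over `n ≤ M`, where
`F = g l * ∏ i ∈ J, (α l i T + b i)`, are at most `N / log ^ U N`, for all `l`, all nonempty sets `J` of indices and all
`M` with `α l i * M ≤ B N`. -/
def Good (B U N : ℕ) {m T : ℕ} (d : Data m T N) (b : Fin m → ℤ) : Prop :=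
  ∀ l, ∀ J : Finset (Fin m), J.Nonempty → ∀ M : ℕ, (∀ i, d.α l i * M ≤ B * N) →
    ‖∑ n ∈ Icc 1 M, d.w l n * (lam ((d.g l * ∏ i ∈ J, (C (d.α l i : ℤ) * X + C (b i))).eval (n : ℤ)) : ℂ)‖ ≤
      N / Real.log N ^ U

/-- There are integers `b 1, ..., b m` with `|b i - v i| ≤ log ^ A N` for all `i` which are not good for the data. -/
def Bad (A B U N : ℕ) {m T : ℕ} (d : Data m T N) (v : Fin m → ℤ) : Prop :=
  ∃ b : Fin m → ℤ, (∀ i, |(b i : ℝ) - v i| ≤ Real.log N ^ A) ∧ ¬ Good B U N d b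

lemma eval_eq {m : ℕ} (g : ℤ[X]) (J : Finset (Fin m)) (α : Fin m → ℕ) (b : Fin m → ℤ) (n : ℕ) :
    (lam ((g * ∏ i ∈ J, (C (α i : ℤ) * X + C (b i))).eval (n : ℤ)) : ℂ) =
      (Pool.Agent.Q25.TPol.lam (g.eval (n : ℤ)) : ℂ) *
        ∏ i ∈ J, Pool.Agent.Q25.TFam.even Pool.Agent.H373R2.T7.liR ((α i : ℤ) * n + b i) := by
  have h : ∀ z, lam z = Pool.Agent.Q25.TPol.lam z := fun _ => rfl
  rw [h, eval_mul, eval_prod, Pool.Agent.Q25.TPol.lam_mul, Pool.Agent.Q25.TPol.lam_prod]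
  push_cast
  congr 1
  apply prod_congr rfl
  intro i _
  rw [Pool.Agent.Q25.TPol.lam_eq]
  congr 2
  simp

open Classical in
/-- tuples from arbitrary families of small energy -/
lemma general (m p A B C T U : ℕ) :
    ∃ N₀ : ℕ, ∀ N : ℕ, N₀ ≤ N → ∀ (Z : Fin (m + 1) → Type) [∀ i, Fintype (Z i)] (v : ∀ i, Z i → ℤ),
      (∀ i z, |v i z| ≤ B * N) →
      (∀ i, (Pool.Agent.TH935.GF.En p (v i) : ℝ) * N ≤ Real.log N ^ C * (Fintype.card (Z i) : ℝ) ^ (2 * p)) →
      ∀ d : Data (m + 1) T N,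
      (((univ : Finset (∀ i, Z i)).filter (fun z => Bad A B U N d (fun i => v i (z i)))).card : ℝ) ≤
        Fintype.card (∀ i, Z i) / Real.log N ^ U := by
  have hf := Pool.Agent.W93.LM.nice_liR.1
  have hs := Pool.Agent.W93.LM.nice_liR.2.1
  have hev : ∀ z, ‖Pool.Agent.Q25.TFam.even Pool.Agent.H373R2.T7.liR z‖ ≤ 1 := fun z => by
    rw [← Pool.Agent.Q25.TPol.lam_eq]
    exact Pool.Agent.Q25.TPol.lam_norm z
  obtain ⟨N₀, h0⟩ := Pool.Agent.H96.LM.tuples_win hf hs hev m p A B C T U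
  refine ⟨N₀, fun N hN Z _ v hv hE d => ?_⟩
  refine h0 N hN Z v hv hE d.D d.hD d.α
    (fun l z => d.w l z.toNat * (Pool.Agent.Q25.TPol.lam ((d.g l).eval z) : ℂ)) d.hα ?_ _ ?_
  · intro l z
    rw [norm_mul]
    calc _ ≤ Real.log N ^ T * 1 := mul_le_mul (d.hw l _) (Pool.Agent.Q25.TPol.lam_norm _) (norm_nonneg _)
          ((norm_nonneg _).trans (d.hw l 0))
      _ = _ := mul_one _
  · intro z hz
    obtain ⟨b, hb, hg⟩ := hz
    unfold Good at hg
    push Not at hg
    obtain ⟨l, J, hJ, M, hM, h1⟩ := hg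
    refine ⟨fun i => b i - v i (z i), fun i => by push_cast; exact hb i, l, J, hJ, M, hM, ?_⟩
    refine lt_of_lt_of_eq h1 ?_
    congr 1
    apply sum_congr rfl
    intro n _
    rw [eval_eq, Int.toNat_natCast, mul_assoc]
    congr 2
    apply prod_congr rfl
    intro i _
    congr 1
    ring

lemma lift_order {V : Type} [Fintype V] (v : V → ℤ) (h h' C C' N : ℕ) (hh : h ≤ h') (hC : C ≤ C') (hL : 1 ≤ Real.log (N : ℝ))
    (hE : (Pool.Agent.TH935.GF.En h v : ℝ) * N ≤ Real.log N ^ C * (Fintype.card V : ℝ) ^ (2 * h)) :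
    (Pool.Agent.TH935.GF.En h' v : ℝ) * N ≤ Real.log N ^ C' * (Fintype.card V : ℝ) ^ (2 * h') := by
  obtain ⟨r, rfl⟩ : ∃ r, h' = h + r := ⟨h' - h, by omega⟩
  have h7 : (Pool.Agent.TH935.GF.En (h + r) v : ℝ) ≤ (Fintype.card V : ℝ) ^ (2 * r) * Pool.Agent.TH935.GF.En h v := by
    exact_mod_cast Pool.Agent.H96.PR.En_mono h r v
  obtain ⟨cc, hcc⟩ : ∃ cc : ℝ, cc = (Fintype.card V : ℝ) := ⟨_, rfl⟩
  have hcc0 : 0 ≤ cc := by rw [hcc]; positivity
  rw [← hcc] at hE h7 ⊢
  have hL' : Real.log N ^ C ≤ Real.log N ^ C' := pow_le_pow_right₀ hL hC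
  calc (Pool.Agent.TH935.GF.En (h + r) v : ℝ) * N ≤ cc ^ (2 * r) * Pool.Agent.TH935.GF.En h v * N :=
        mul_le_mul_of_nonneg_right h7 (Nat.cast_nonneg _)
    _ = cc ^ (2 * r) * (Pool.Agent.TH935.GF.En h v * N) := by ring
    _ ≤ cc ^ (2 * r) * (Real.log N ^ C * cc ^ (2 * h)) := mul_le_mul_of_nonneg_left hE (by positivity)
    _ ≤ cc ^ (2 * r) * (Real.log N ^ C' * cc ^ (2 * h)) := by gcongr
    _ = Real.log N ^ C' * cc ^ (2 * (h + r)) := by ring

open Classical in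
/-- the second part -/
lemma polys (k m A B C T U : ℕ) (δ : ℝ) (hδ : 0 < δ) (P : Fin (m + 1) → Fin (k + 2) → ℤ[X])
    (hP : ∀ i j, 1 ≤ (P i j).natDegree) :
      ∃ N₀ : ℕ, ∀ N : ℕ, N₀ ≤ N → ∀ (X : Fin (m + 1) → Fin (k + 2) → ℕ) (E : Fin (m + 1) → Fin (k + 2) → Finset ℕ),
      (∀ i j, E i j ⊆ Icc 1 (X i j) ∧ (X i j : ℝ) ≤ Real.log N ^ C * (E i j).card) →
      (∀ i j, (N : ℝ) ^ δ ≤ X i j ∧ X i j ≤ N ^ B) →
      (∀ i, (N : ℝ) ≤ Real.log N ^ C * ∏ j, (X i j : ℝ) ^ (P i j).natDegree) →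
      ∀ f : ∀ _ : Fin (m + 1), Fin (k + 2) → (Fin (k + 2) → ℕ) → ℤ, (∀ i, Free (f i)) →
      (∀ i, ∀ x ∈ Fintype.piFinset (E i), |val (fun j (n : ℕ) => (P i j).eval (n : ℤ)) (f i) x| ≤ B * N) →
      ∀ d : Data (m + 1) T N,
      (((Fintype.piFinset fun i => Fintype.piFinset (E i)).filter
        (fun x => Bad A B U N d (fun i => val (fun j (n : ℕ) => (P i j).eval (n : ℤ)) (f i) (x i)))).card : ℝ) ≤
        (∏ i, ∏ j, ((E i j).card : ℝ)) / Real.log N ^ U := by
  choose H C' N₁ hH h1 using fun i => Pool.Agent.H96.PR.energy_polys k C B δ hδ (P i) (hP i)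
  -- a common order of the energy
  obtain ⟨H', hH'⟩ : ∃ H' : ℕ, ∀ i, H i ≤ H' := ⟨∑ i, H i, fun i => single_le_sum (f := H) (fun _ _ => Nat.zero_le _) (mem_univ i)⟩
  obtain ⟨C'', hC''⟩ : ∃ C'' : ℕ, ∀ i, C' i ≤ C'' := ⟨∑ i, C' i, fun i => single_le_sum (f := C') (fun _ _ => Nat.zero_le _) (mem_univ i)⟩
  obtain ⟨N₂, h2⟩ := general m H' A B C'' T U
  obtain ⟨N₃, h3⟩ := Pool.Agent.H373R2.T7.ev_L' 1
  refine ⟨∑ i, N₁ i + N₂ + N₃, fun N hN X E hE hX hNX f hf hv d => ?_⟩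
  have hL1 := h3 N (by omega)
  have hN₁ : ∀ i, N₁ i ≤ N := by
    intro i
    have : N₁ i ≤ ∑ i, N₁ i := single_le_sum (f := N₁) (fun _ _ => Nat.zero_le _) (mem_univ i)
    omega
  have h4 := h2 N (by omega) (fun i => ∀ j, {n // n ∈ E i j})
    (fun i x => ∏ j, (P i j).eval ((x j : ℕ) : ℤ) + ∑ s, f i s (fun j => (x j : ℕ)))
    (fun i x => hv i (fun j => (x j : ℕ)) (Fintype.mem_piFinset.2 fun j => (x j).2))
    (fun i => lift_order _ (H i) H' (C' i) C'' N (hH' i) (hC'' i) hL1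
      (h1 i N (hN₁ i) (X i) (E i) (hE i) (hX i) (hNX i) (f i) (hf i))) d
  have e1 : (Fintype.card (∀ i j, {n // n ∈ E i j}) : ℝ) = ∏ i, ∏ j, ((E i j).card : ℝ) := by
    rw [Fintype.card_pi]
    push_cast
    refine prod_congr rfl fun i _ => ?_
    rw [Fintype.card_pi]
    push_cast
    exact prod_congr rfl fun j _ => by rw [Fintype.card_coe]
  rw [e1] at h4
  refine le_trans ?_ h4
  rw [Nat.cast_le]
  apply card_le_card_of_surjOn (fun x i j => ((x i j : {n // n ∈ E i j}) : ℕ))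
  intro x hx
  rw [mem_coe, mem_filter, Fintype.mem_piFinset] at hx
  refine ⟨fun i j => ⟨x i j, Fintype.mem_piFinset.1 (hx.1 i) j⟩, ?_, rfl⟩
  rw [mem_coe, mem_filter]
  exact ⟨mem_univ _, hx.2⟩

open Classical in
/-- the first part -/
lemma fams (k m A B C T U h : ℕ) (δ : ℝ) (hδ : 0 < δ) :
    ∃ N₀ : ℕ, ∀ N : ℕ, N₀ ≤ N → ∀ (Y : Fin (m + 1) → Fin (k + 2) → Type) [∀ i j, Fintype (Y i j)] (a : ∀ i j, Y i j → ℤ)
      (M : Fin (m + 1) → Fin (k + 2) → ℕ),
      (∀ i j x, |a i j x| ≤ M i j) → (∀ i j, (N : ℝ) ^ δ ≤ M i j ∧ M i j ≤ N ^ B) →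
      (∀ i, (N : ℝ) ≤ Real.log N ^ C * ∏ j, (M i j : ℝ)) →
      (∀ i j, (energy h (a i j) : ℝ) * M i j ≤ Real.log N ^ C * (Fintype.card (Y i j) : ℝ) ^ (2 * h)) →
      ∀ f : ∀ i, Fin (k + 2) → (∀ j, Y i j) → ℤ, (∀ i, Free (f i)) → (∀ i x, |val (a i) (f i) x| ≤ B * N) →
      ∀ d : Data (m + 1) T N,
      (((univ : Finset (∀ i j, Y i j)).filter
        (fun x => Bad A B U N d (fun i => val (a i) (f i) (x i)))).card : ℝ) ≤
        Fintype.card (∀ i j, Y i j) / Real.log N ^ U := by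
  obtain ⟨H, C', N₁, hH, h1⟩ := Pool.Agent.H96.PR.energy_main0 h k C B δ hδ
  obtain ⟨N₂, h2⟩ := general m H A B C' T U
  refine ⟨N₁ + N₂, fun N hN Y _ a M ha hM hNM hE f hf hv d => ?_⟩
  exact h2 N (by omega) (fun i => ∀ j, Y i j) (fun i => val (a i) (f i)) hv
    (fun i => h1 N (by omega) (Y i) (a i) (M i) (f i) (hM i) (ha i) (hE i) (hNM i) (hf i)) d

open Classical in
/-- Let `k ≥ 2`, `m ≥ 1`, `A`, `B`, `C`, `T`, `U`, `h` be natural numbers and `δ > 0`. The following two statements hold.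

(1) For all sufficiently large `N`: for `i = 1, ..., m` and `j = 1, ..., k` let `a i j : Y i j → ℤ` be any finite
families of integers with `|a i j| ≤ M i j`, `N ^ δ ≤ M i j ≤ N ^ B`, `∏ j, M i j ≥ N / log ^ C N`, whose additive
energies of order `h` are at most `log ^ C N` times `|Y i j| ^ (2 h) / M i j` (up to the logarithms the smallest
possible value). Let `f i 1, ..., f i k` be ARBITRARY integer valued functions on the product of the `Y i j`,
`j = 1, ..., k`, such that `f i j (x)` does not depend on `x j`, and such that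
`val (a i) (f i) (x) = a i 1 (x 1) ⋯ a i k (x k) + f i 1 (x) + ... + f i k (x)` is at most `B N` in absolute value. Let
`d` be any data: for at most `log ^ T N` indices `l` natural numbers `α l i ≥ 1`, ARBITRARY polynomials `g l ∈ ℤ[T]`
and ARBITRARY weights `w l n` bounded by `log ^ T N`. Then for all families `x i = (x i 1, ..., x i k)`,
`i = 1, ..., m`, with at most `1 / log ^ U N` times the number of all of them as exceptions, ALL integers
`b 1, ..., b m` with `|b i - val (a i) (f i) (x i)| ≤ log ^ A N` satisfy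
`|∑ n ≤ M, w l n * λ(F(n))| ≤ N / log ^ U N` for all `l`, all nonempty sets `J` of indices and all `M` with
`α l i M ≤ B N`, where `F = g l * ∏ i ∈ J, (α l i T + b i)`.

(2) The same holds for the values `a i j (x) = P i j (x)` of fixed nonconstant polynomials with integer coefficients on
arbitrary sets `E i j ⊆ {1, ..., X i j}` with at least `X i j / log ^ C N` elements (for instance: the primes), where
`N ^ δ ≤ X i j ≤ N ^ B` and `∏ j, (X i j) ^ deg (P i j) ≥ N / log ^ C N`. -/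
theorem result (k m : ℕ) (hk : 2 ≤ k) (hm : 1 ≤ m) (A B C T U h : ℕ) (δ : ℝ) (hδ : 0 < δ) :
    (∃ N₀ : ℕ, ∀ N : ℕ, N₀ ≤ N → ∀ (Y : Fin m → Fin k → Type) [∀ i j, Fintype (Y i j)] (a : ∀ i j, Y i j → ℤ)
      (M : Fin m → Fin k → ℕ),
      (∀ i j x, |a i j x| ≤ M i j) → (∀ i j, (N : ℝ) ^ δ ≤ M i j ∧ M i j ≤ N ^ B) →
      (∀ i, (N : ℝ) ≤ Real.log N ^ C * ∏ j, (M i j : ℝ)) →
      (∀ i j, (energy h (a i j) : ℝ) * M i j ≤ Real.log N ^ C * (Fintype.card (Y i j) : ℝ) ^ (2 * h)) →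
      ∀ f : ∀ i, Fin k → (∀ j, Y i j) → ℤ, (∀ i, Free (f i)) → (∀ i x, |val (a i) (f i) x| ≤ B * N) →
      ∀ d : Data m T N,
      (((univ : Finset (∀ i j, Y i j)).filter
        (fun x => Bad A B U N d (fun i => val (a i) (f i) (x i)))).card : ℝ) ≤
        Fintype.card (∀ i j, Y i j) / Real.log N ^ U) ∧
    (∀ P : Fin m → Fin k → ℤ[X], (∀ i j, 1 ≤ (P i j).natDegree) →
      ∃ N₀ : ℕ, ∀ N : ℕ, N₀ ≤ N → ∀ (X : Fin m → Fin k → ℕ) (E : Fin m → Fin k → Finset ℕ),
      (∀ i j, E i j ⊆ Icc 1 (X i j) ∧ (X i j : ℝ) ≤ Real.log N ^ C * (E i j).card) →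
      (∀ i j, (N : ℝ) ^ δ ≤ X i j ∧ X i j ≤ N ^ B) →
      (∀ i, (N : ℝ) ≤ Real.log N ^ C * ∏ j, (X i j : ℝ) ^ (P i j).natDegree) →
      ∀ f : ∀ _ : Fin m, Fin k → (Fin k → ℕ) → ℤ, (∀ i, Free (f i)) →
      (∀ i, ∀ x ∈ Fintype.piFinset (E i), |val (fun j (n : ℕ) => (P i j).eval (n : ℤ)) (f i) x| ≤ B * N) →
      ∀ d : Data m T N,
      (((Fintype.piFinset fun i => Fintype.piFinset (E i)).filter
        (fun x => Bad A B U N d (fun i => val (fun j (n : ℕ) => (P i j).eval (n : ℤ)) (f i) (x i)))).card : ℝ) ≤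
        (∏ i, ∏ j, ((E i j).card : ℝ)) / Real.log N ^ U) := by
  obtain ⟨k, rfl⟩ : ∃ k', k = k' + 2 := ⟨k - 2, by omega⟩
  obtain ⟨m, rfl⟩ : ∃ m', m = m' + 1 := ⟨m - 1, by omega⟩
  exact ⟨fams k m A B C T U h δ hδ, fun P hP => polys k m A B C T U δ hδ P hP⟩

end Pool.Agent.Results.MP_892e4c_nt.PerturbedProductConstants
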